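import Mathlib

namespace Pool.Agent.MP_0b4698_lc

open Cardinal Set Filter

/-- The dominating number. -/
noncomputable def domNumber : Cardinal.{0} :=
  sInf {κ | ∃ D : Set (ℕ → ℕ), (∀ f : ℕ → ℕ, ∃ g ∈ D, ∀ᶠ n in atTop, f n ≤ g n) ∧ #D = κ}

/-- The ultrafilter number: least size of a base of a non-principal ultrafilter on `ℕ`. -/
noncomputable def ultrafilterNumber : Cardinal.{0} :=
  sInf {κ | ∃ (U : Ultrafilter ℕ) (B : Set (Set ℕ)), (∀ s ∈ U, s.Infinite) ∧
    (∀ b ∈ B, b ∈ U) ∧ (∀ s ∈ U, ∃ b ∈ B, b ⊆ s) ∧ #B = κ}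

/-- Ideal independent families of infinite subsets of `ℕ`: no member is almost contained in the
union of finitely many other members. -/
def IdealIndep (Y : Set (Set ℕ)) : Prop :=
  (∀ y ∈ Y, y.Infinite) ∧
    ∀ y ∈ Y, ∀ F : Finset (Set ℕ), (↑F : Set (Set ℕ)) ⊆ Y \ {y} → (y \ ⋃ a ∈ F, a).Infinite

/-- `𝔰_mm`: the least size of an infinite maximal ideal independent family. -/
noncomputable def smm : Cardinal.{0} :=
  sInf {κ | ∃ Y : Set (Set ℕ), Maximal IdealIndep Y ∧ Y.Infinite ∧ #Y = κ}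

/-- Finite unions of sets outside an ultrafilter are outside it. -/
theorem biUnion_notMem (V : Ultrafilter ℕ) (F : Finset (Set ℕ)) (h : ∀ a ∈ F, a ∉ V) :
    (⋃ a ∈ F, a) ∉ V := by
  classical
  induction F using Finset.induction_on with
  | empty => simp
  | insert a s ha ih =>
    intro hmem
    rw [Finset.set_biUnion_insert, Ultrafilter.union_mem_iff] at hmem
    rcases hmem with h1 | h1
    · exact h a (Finset.mem_insert_self _ _) h1
    · exact ih (fun b hb => h b (Finset.mem_insert_of_mem hb)) h1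

/-- The general construction: a discrete family of ultrafilters whose null ideal has a small
cofinal family gives a maximal ideal independent family. -/
theorem exists_maximal {I J : Type} [Infinite I] (V : I → Ultrafilter ℕ) (Z : I → Set ℕ)
    (hZ : ∀ i, Z i ∈ V i) (hZ' : ∀ i j, i ≠ j → Z i ∉ V j)
    (hV : ∀ i, ∀ s ∈ V i, s.Infinite) (C : J → Set ℕ) (hC : ∀ j i, C j ∉ V i)
    (hcof : ∀ X : Set ℕ, (∀ i, X ∉ V i) → ∃ j, X ⊆ C j)
    (e : I → J) (he : ∀ j, ∃ a b, a ≠ b ∧ e a = j ∧ e b = j) :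
    ∃ Y : Set (Set ℕ), Maximal IdealIndep Y ∧ Y.Infinite ∧ #Y ≤ #I := by
  classical
  set A : I → Set ℕ := fun i => Z i ∪ C (e i) with hA
  have hA1 : ∀ i, A i ∈ V i := fun i => (V i).toFilter.mem_of_superset (hZ i) subset_union_left
  have hA2 : ∀ i j, i ≠ j → A i ∉ V j := by
    intro i j hij h
    rcases Ultrafilter.union_mem_iff.1 h with h | h
    · exact hZ' i j hij h
    · exact hC _ _ h
  have hinj : Function.Injective A := by
    intro i j hij
    by_contra hne
    exact hA2 i j hne (hij ▸ hA1 j)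
  have hind : IdealIndep (range A) := by
    refine ⟨?_, ?_⟩
    · rintro _ ⟨i, rfl⟩
      exact hV i _ (hA1 i)
    · rintro _ ⟨i, rfl⟩ F hF
      apply hV i
      have h1 : (⋃ a ∈ F, a) ∉ V i := by
        apply biUnion_notMem
        intro a ha
        obtain ⟨⟨j, rfl⟩, hj⟩ := hF ha
        apply hA2 j i
        rintro rfl
        exact hj rfl
      have h2 : (⋃ a ∈ F, a)ᶜ ∈ V i := Ultrafilter.compl_mem_iff_notMem.2 h1
      exact (V i).toFilter.inter_sets (hA1 i) h2
  refine ⟨range A, ⟨hind, ?_⟩, infinite_range_of_injective hinj, mk_range_le⟩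
  intro Y' hY' hsub X hX
  by_contra hXn
  by_cases hex : ∃ i, X ∈ V i
  · obtain ⟨i, hi⟩ := hex
    have hnull : ∀ k, A i \ X ∉ V k := by
      intro k hk
      by_cases hik : i = k
      · subst hik
        have : X ∩ (A i \ X) ∈ V i := (V i).toFilter.inter_sets hi hk
        rw [inter_sdiff_self] at this
        exact (V i).empty_notMem this
      · exact hA2 i k hik ((V k).toFilter.mem_of_superset hk sdiff_subset)
    obtain ⟨j, hj⟩ := hcof _ hnull
    obtain ⟨a, b, hab, ha, hb⟩ := he j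
    obtain ⟨c, hc1, hc2⟩ : ∃ c, c ≠ i ∧ e c = j := by
      by_cases hai : a = i
      · exact ⟨b, fun h => hab (hai.trans h.symm), hb⟩
      · exact ⟨a, hai, ha⟩
    have h3 := hY'.2 (A i) (hsub ⟨i, rfl⟩) {X, A c} (by
      intro z hz
      simp only [Finset.coe_insert, Finset.coe_singleton, mem_insert_iff,
        mem_singleton_iff] at hz
      rcases hz with rfl | rfl
      · exact ⟨hX, fun h => hXn ⟨i, h.symm⟩⟩
      · exact ⟨hsub ⟨c, rfl⟩, fun h => hc1 (hinj h)⟩)
    have h4 : (A i \ ⋃ a ∈ ({X, A c} : Finset (Set ℕ)), a) = ∅ := by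
      rw [sdiff_eq_empty]
      intro x hx
      simp only [Finset.mem_insert, Finset.mem_singleton, iUnion_iUnion_eq_or_left,
        iUnion_iUnion_eq_left, mem_union]
      by_cases hxX : x ∈ X
      · exact Or.inl hxX
      · right
        right
        rw [hc2]
        exact hj ⟨hx, hxX⟩
    rw [h4] at h3
    exact h3 finite_empty
  · push Not at hex
    obtain ⟨j, hj⟩ := hcof X hex
    obtain ⟨a, b, hab, ha, hb⟩ := he j
    have h3 := hY'.2 X hX {A a} (by
      intro z hz
      simp only [Finset.coe_singleton, mem_singleton_iff] at hz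
      subst hz
      exact ⟨hsub ⟨a, rfl⟩, fun h => hXn ⟨a, h⟩⟩)
    have h4 : (X \ ⋃ a' ∈ ({A a} : Finset (Set ℕ)), a') = ∅ := by
      rw [sdiff_eq_empty]
      intro x hx
      simp only [Finset.mem_singleton, iUnion_iUnion_eq_left]
      right
      rw [ha]
      exact hj hx
    rw [h4] at h3
    exact h3 finite_empty

/-- Countably many members of a non-principal ultrafilter have an infinite pseudo-intersection
outside the ultrafilter. -/
theorem exists_pseudo (U : Ultrafilter ℕ) (hU : ∀ s ∈ U, s.Infinite) (T : ℕ → Set ℕ)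
    (hT : ∀ n, T n ∈ U) : ∃ Z : Set ℕ, Z.Infinite ∧ Z ∉ U ∧ ∀ n, (Z \ T n).Finite := by
  classical
  have hfin : ∀ n, (⋂ k ∈ Finset.range (n + 1), T k) ∈ U := by
    intro n
    exact (Filter.biInter_finset_mem _).2 (fun k _ => hT k)
  have hex : ∀ n m : ℕ, ∃ x, m < x ∧ ∀ k ≤ n, x ∈ T k := by
    intro n m
    obtain ⟨x, hx, hmx⟩ := (hU _ (hfin n)).exists_gt m
    refine ⟨x, hmx, fun k hk => ?_⟩
    simp only [Finset.mem_range, mem_iInter] at hx
    exact hx k (by omega)
  choose nx hnx1 hnx2 using hex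
  let p : ℕ → ℕ := fun n => Nat.rec (nx 0 0) (fun k y => nx (k + 1) y) n
  have hp_succ : ∀ n, p (n + 1) = nx (n + 1) (p n) := fun n => rfl
  have hmono : StrictMono p := strictMono_nat_of_lt_succ (fun n => by
    rw [hp_succ]; exact hnx1 _ _)
  have hpT : ∀ n, ∀ k ≤ n, p n ∈ T k := by
    intro n
    cases n with
    | zero => exact fun k hk => hnx2 0 0 k hk
    | succ n => exact fun k hk => by rw [hp_succ]; exact hnx2 _ _ k hk
  have hkey : ∀ S : Set ℕ, ∀ n, ((p '' S) \ T n).Finite := by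
    intro S n
    apply ((Finset.range n).finite_toSet.image p).subset
    rintro _ ⟨⟨k, _, rfl⟩, hk2⟩
    refine ⟨k, ?_, rfl⟩
    simp only [Finset.coe_range, mem_Iio]
    by_contra hcon
    exact hk2 (hpT k n (by omega))
  have hE : (p '' {n | Even n}).Infinite := by
    apply Set.Infinite.image hmono.injective.injOn
    exact Set.infinite_of_forall_exists_gt (fun a => ⟨2 * (a + 1), by simp, by omega⟩)
  have hO : (p '' {n | ¬ Even n}).Infinite := by
    apply Set.Infinite.image hmono.injective.injOn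
    refine Set.infinite_of_forall_exists_gt (fun a => ⟨2 * a + 1, ?_, by omega⟩)
    simp
  by_cases h : (p '' {n | Even n}) ∈ U
  · refine ⟨p '' {n | ¬ Even n}, hO, fun h2 => ?_, hkey _⟩
    have h3 := hU _ (U.toFilter.inter_sets h h2)
    have h4 : p '' {n | Even n} ∩ p '' {n | ¬ Even n} = ∅ := by
      rw [← image_inter hmono.injective]
      have : ({n : ℕ | Even n} ∩ {n | ¬ Even n}) = ∅ := by
        ext x; simp
      rw [this, image_empty]
    rw [h4] at h3
    exact h3 finite_empty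
  · exact ⟨_, hE, h, hkey _⟩

theorem exists_pseudo' (U : Ultrafilter ℕ) (hU : ∀ s ∈ U, s.Infinite) (𝒯 : Set (Set ℕ))
    (hc : 𝒯.Countable) (hT : ∀ t ∈ 𝒯, t ∈ U) :
    ∃ Z : Set ℕ, Z.Infinite ∧ Z ∉ U ∧ ∀ t ∈ 𝒯, (Z \ t).Finite := by
  rcases 𝒯.eq_empty_or_nonempty with rfl | hne
  · obtain ⟨Z, h1, h2, -⟩ := exists_pseudo U hU (fun _ => univ) (fun _ => univ_mem)
    exact ⟨Z, h1, h2, by simp⟩
  · obtain ⟨T, rfl⟩ := hc.exists_eq_range hne
    obtain ⟨Z, h1, h2, h3⟩ := exists_pseudo U hU T (fun n => hT _ ⟨n, rfl⟩)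
    exact ⟨Z, h1, h2, by rintro _ ⟨n, rfl⟩; exact h3 n⟩

/-- The almost disjoint family of sets `Z i` outside `U`, with `Z i` almost contained in the
earlier members of the base. -/
theorem exists_family (U : Ultrafilter ℕ) (hU : ∀ s ∈ U, s.Infinite) {I : Type} [LinearOrder I]
    [WellFoundedLT I] (hIc : ∀ i : I, (Iic i).Countable) (B : I → Set ℕ) (hB : ∀ i, B i ∈ U) :
    ∃ Z : I → Set ℕ, (∀ i, (Z i).Infinite) ∧ (∀ i j, i ≤ j → (Z j \ B i).Finite) ∧
      ∀ i j, i ≠ j → (Z i ∩ Z j).Finite := by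
  classical
  have key : ∀ (j : I) (z : (i : I) → i < j → Set ℕ), ∃ Z : Set ℕ, Z.Infinite ∧ Z ∉ U ∧
      (∀ i ≤ j, (Z \ B i).Finite) ∧ ∀ i (h : i < j), z i h ∉ U → (Z ∩ z i h).Finite := by
    intro j z
    have hcj : (Iic j).Countable := hIc j
    have hcj' : (Iio j).Countable := hcj.mono Iio_subset_Iic_self
    obtain ⟨Z, h1, h2, h3⟩ := exists_pseudo' U hU
      ((B '' Iic j) ∪ {t | ∃ i, ∃ h : i < j, z i h ∉ U ∧ t = (z i h)ᶜ})
      (by
        apply Countable.union (hcj.image B)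
        have : {t | ∃ i, ∃ h : i < j, z i h ∉ U ∧ t = (z i h)ᶜ} ⊆
            (fun i => if h : i < j then (z i h)ᶜ else ∅) '' Iio j := by
          rintro t ⟨i, h, -, rfl⟩
          refine ⟨i, h, ?_⟩
          simp [h]
        exact (hcj'.image _).mono this)
      (by
        rintro t (⟨i, -, rfl⟩ | ⟨i, h, hz, rfl⟩)
        · exact hB i
        · exact Ultrafilter.compl_mem_iff_notMem.2 hz)
    refine ⟨Z, h1, h2, fun i hi => h3 _ (Or.inl ⟨i, hi, rfl⟩), fun i h hz => ?_⟩
    have := h3 _ (Or.inr ⟨i, h, hz, rfl⟩)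
    rwa [sdiff_compl] at this
  choose step hs1 hs2 hs3 hs4 using key
  let Z : I → Set ℕ := (wellFounded_lt (α := I)).fix (fun j z => step j z)
  have hZ : ∀ j, Z j = step j (fun i _ => Z i) := fun j => WellFounded.fix_eq _ _ j
  have hlt : ∀ i j, i < j → (Z j ∩ Z i).Finite := by
    intro i j hij
    have h := hs4 j (fun i _ => Z i) i hij (by
      show Z i ∉ U
      rw [hZ i]; exact hs2 _ _)
    rw [← hZ j] at h
    exact h
  refine ⟨Z, fun i => by rw [hZ i]; exact hs1 _ _, fun i j hij => by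
    rw [hZ j]; exact hs3 _ _ _ hij, fun i j hij => ?_⟩
  rcases lt_or_gt_of_ne hij with h | h
  · rw [inter_comm]; exact hlt i j h
  · exact hlt j i h

theorem small (U : Ultrafilter ℕ) (hU : ∀ s ∈ U, s.Infinite) {I : Type} [LinearOrder I]
    [WellFoundedLT I] [Infinite I] (hIc : ∀ i : I, (Iic i).Countable)
    (hIu : ¬ (Set.univ : Set I).Countable) (B : I → Set ℕ) (hB : ∀ i, B i ∈ U)
    (hB' : ∀ s ∈ U, ∃ i, B i ⊆ s) (D : I → ℕ → ℕ) (hD : ∀ f : ℕ → ℕ, ∃ i, ∀ n, f n ≤ D i n) :
    ∃ Y : Set (Set ℕ), Maximal IdealIndep Y ∧ Y.Infinite ∧ #Y ≤ #I := by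
  classical
  obtain ⟨Z, hZ1, hZ2, hZ3⟩ := exists_family U hU hIc B hB
  -- transport of `U` to `Z i`
  let φ : I → ℕ → ℕ := fun i n => ((hZ1 i).natEmbedding (Z i) n : ℕ)
  have hφinj : ∀ i, Function.Injective (φ i) := fun i =>
    Subtype.val_injective.comp ((hZ1 i).natEmbedding (Z i)).injective
  have hφmem : ∀ i n, φ i n ∈ Z i := fun i n => ((hZ1 i).natEmbedding (Z i) n).2
  let V : I → Ultrafilter ℕ := fun i => U.map (φ i)
  have hVmem : ∀ i s, s ∈ V i ↔ (φ i) ⁻¹' s ∈ U := fun i s => Ultrafilter.mem_map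
  have hVinf : ∀ i, ∀ s ∈ V i, s.Infinite := by
    intro i s hs hfin
    exact hU _ ((hVmem i s).1 hs) (hfin.preimage (hφinj i).injOn)
  have hZV : ∀ i, Z i ∈ V i := by
    intro i
    rw [hVmem]
    have : (φ i) ⁻¹' (Z i) = Set.univ := by
      ext n; simp [hφmem i n]
    rw [this]; exact univ_mem
  have hZV' : ∀ i j, i ≠ j → Z i ∉ V j := by
    intro i j hij h
    exact hVinf j _ ((V j).toFilter.inter_sets h (hZV j)) (hZ3 i j hij)
  have hBV : ∀ i j, i ≤ j → B i ∈ V j := by
    intro i j hij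
    by_contra hcon
    have h1 : (B i)ᶜ ∈ V j := Ultrafilter.compl_mem_iff_notMem.2 hcon
    exact hVinf j _ ((V j).toFilter.inter_sets (hZV j) h1) (hZ2 i j hij)
  -- enumerations of initial segments
  have henum : ∀ i : I, ∃ f : ℕ → I, Iic i = range f := fun i =>
    (hIc i).exists_eq_range ⟨i, mem_Iic.2 le_rfl⟩
  choose e he using henum
  let b : I → I → Set ℕ := fun ξ j => φ ξ '' B j
  have hb : ∀ ξ j, b ξ j ∈ V ξ := by
    intro ξ j
    rw [hVmem]
    exact U.toFilter.mem_of_superset (hB j) (subset_preimage_image _ _)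
  let C : I × I × I → Set ℕ := fun t =>
    {x | x ∉ B t.1 ∧ ∀ n, ∃ k ≤ D t.2.2 n, x ∉ b (e t.1 n) (e t.2.1 k)}
  have hC : ∀ (t : I × I × I) (ξ : I), C t ∉ V ξ := by
    rintro ⟨i, γ, d⟩ ξ hmem
    rcases le_or_gt i ξ with h | h
    · have h1 := (V ξ).toFilter.inter_sets hmem (hBV i ξ h)
      apply hVinf ξ _ h1
      convert finite_empty
      ext x
      simp only [mem_inter_iff, mem_empty_iff_false, iff_false, not_and]
      exact fun hx => hx.1
    · have hξ : ξ ∈ range (e i) := by rw [← he i]; exact h.le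
      obtain ⟨n, hn⟩ := hξ
      have h2 : (⋂ k ∈ Finset.range (D d n + 1), b ξ (e γ k)) ∈ V ξ :=
        (Filter.biInter_finset_mem _).2 (fun k _ => hb ξ _)
      have h1 := (V ξ).toFilter.inter_sets hmem h2
      apply hVinf ξ _ h1
      convert finite_empty
      ext x
      simp only [mem_inter_iff, mem_empty_iff_false, iff_false, not_and]
      rintro ⟨-, hx⟩ hx2
      obtain ⟨k, hk, hk2⟩ := hx n
      simp only [Finset.mem_range, mem_iInter] at hx2
      apply hk2
      change x ∈ b (e i n) (e γ k)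
      rw [hn]
      exact hx2 k (by simp only at hk; omega)
  have hcof : ∀ X : Set ℕ, (∀ i, X ∉ V i) → ∃ t, X ⊆ C t := by
    intro X hX
    have hXU : X ∉ U := by
      intro h
      obtain ⟨i, hi⟩ := hB' X h
      exact hX i ((V i).toFilter.mem_of_superset (hBV i i le_rfl) hi)
    obtain ⟨i, hi⟩ := hB' _ (Ultrafilter.compl_mem_iff_notMem.2 hXU)
    have hh : ∀ ξ : I, ∃ j, ∀ x ∈ X, x ∉ b ξ j := by
      intro ξ
      have h1 : Xᶜ ∈ V ξ := Ultrafilter.compl_mem_iff_notMem.2 (hX ξ)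
      obtain ⟨j, hj⟩ := hB' _ ((hVmem ξ _).1 h1)
      refine ⟨j, fun x hx hxb => ?_⟩
      obtain ⟨y, hy, rfl⟩ := hxb
      exact hj hy hx
    choose h hh using hh
    obtain ⟨γ, hγ⟩ : ∃ γ, ∀ n, h (e i n) ≤ γ := by
      by_contra hcon
      push Not at hcon
      apply hIu
      refine (countable_iUnion (fun n => hIc (h (e i n)))).mono ?_
      intro γ _
      obtain ⟨n, hn⟩ := hcon γ
      exact mem_iUnion.2 ⟨n, hn.le⟩
    have hg : ∀ n, ∃ k, e γ k = h (e i n) := by
      intro n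
      have : h (e i n) ∈ range (e γ) := by rw [← he γ]; exact hγ n
      exact this
    choose g hg using hg
    obtain ⟨d, hd⟩ := hD g
    refine ⟨(i, γ, d), fun x hx => ⟨fun hxB => hi hxB hx, fun n => ⟨g n, hd n, ?_⟩⟩⟩
    change x ∉ b (e i n) (e γ (g n))
    rw [hg n]
    exact hh _ x hx
  -- the two-to-one enumeration
  have hcard : #((I × I × I) × Bool) ≤ #I := by
    have hω : ℵ₀ ≤ #I := aleph0_le_mk I
    simp only [mk_prod, lift_id, mk_bool]
    rw [mul_eq_self hω, mul_eq_self hω]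
    calc #I * 2 ≤ #I * #I := by gcongr; exact (natCast_le_aleph0 (n := 2)).trans hω
      _ = #I := mul_eq_self hω
  obtain ⟨ι⟩ : Nonempty (((I × I × I) × Bool) ↪ I) := hcard
  have : Nonempty ((I × I × I) × Bool) := by
    obtain ⟨i⟩ := (inferInstance : Nonempty I)
    exact ⟨((i, i, i), true)⟩
  let E : I → I × I × I := fun i => (Function.invFun ι i).1
  refine exists_maximal V Z hZV hZV' hVinf C hC hcof E (fun j => ?_)
  refine ⟨ι (j, true), ι (j, false), fun h => ?_, ?_, ?_⟩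
  · have := ι.injective h
    simp at this
  · simp only [E, Function.leftInverse_invFun ι.injective (j, true)]
  · simp only [E, Function.leftInverse_invFun ι.injective (j, false)]

end Pool.Agent.MP_0b4698_lc
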